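import Pool.Agent.Y112.IR.Main

/-!
# Idempotents of representation rings: infinite groups and classes of representations

Let `R` be any commutative ring and `G` any group, possibly infinite, and suppose that `G` is
finitely generated (for instance finite) or that `R` is Noetherian. The representation ring
`a(RG)` has no idempotents besides `0` and `1`. The same holds for the Grothendieck ring
`K0 T` of every class `T` of `R`-representations of `G` which contains the zero and the trivial
representation and is closed under direct sums and tensor products; in `K0 T` the relation
`[M] = [N]` means `M ⊕ Q ≅ N ⊕ Q` for some `Q` in `T`, so `K0 T` is in general not a subring of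
`a(RG)`.
-/

namespace Pool.Agent.Results.MP_6995cd_al.InfiniteGroupsAndClasses

open Pool.Agent.Rep463

theorem result.{u, v} (R : Type u) [CommRing R] (G : Type v) [Group G]
    (h : Group.FG G ∨ IsNoetherianRing R) :
    (∀ e : RepRing R G, e * e = e → e = 0 ∨ e = 1) ∧
    (∀ T : Subsemiring (OpClass R G), T ≤ repClass R G →
      ∀ e : K0 T, e * e = e → e = 0 ∨ e = 1) :=
  ⟨fun e he => Pool.Agent.Y112.IR.main h le_rfl e he,
    fun _ hT e he => Pool.Agent.Y112.IR.main h hT e he⟩

end Pool.Agent.Results.MP_6995cd_al.InfiniteGroupsAndClasses
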